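import Pool.Agent.Helper85.RL.Stmts2
import Pool.Agent.Helper24.HR.FNUM

/-! Module NUML: the final numbers. -/

set_option autoImplicit false

namespace Pool.Helper92.RL

open Pool.Helper16.HR Pool.Helper85.RL

theorem numl_clog (m e h : ℕ) (heh : e ≤ 2 ^ h) :
    Nat.clog 2 (2 * (m * e)) ≤ 1 + h + Nat.clog 2 m := by
  refine Nat.clog_le_of_le_pow ?_
  have h1 : m ≤ 2 ^ Nat.clog 2 m := Nat.le_pow_clog (by omega) m
  calc 2 * (m * e) ≤ 2 * (2 ^ Nat.clog 2 m * 2 ^ h) :=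
        Nat.mul_le_mul_left _ (Nat.mul_le_mul h1 heh)
    _ = 2 ^ (1 + h + Nat.clog 2 m) := by
        rw [pow_add, pow_add]
        ring

theorem numl_num (h L : ℕ) (hL : 1 ≤ L) :
    14 + 6 * h + L + 2 * (64 * (2 ^ h) ^ 2 * (1 + h + L) + 1) ≤ 2 ^ (3 * h + 9) * L := by
  obtain ⟨x, hx⟩ : ∃ x, x = 2 ^ h := ⟨_, rfl⟩
  have h1 : h + 1 ≤ x := by
    rw [hx]
    exact Nat.lt_two_pow_self
  have h2 : 2 ^ (3 * h + 9) = 512 * x ^ 3 := by
    rw [hx, pow_add, pow_mul', mul_comm]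
    norm_num
  rw [h2, ← hx]
  have h3 : 1 + h + L ≤ (2 * x) * L := by nlinarith
  have h4 : x ^ 2 * (1 + h + L) ≤ x ^ 2 * ((2 * x) * L) := Nat.mul_le_mul_left _ h3
  have h5 : 16 + 6 * h + L ≤ 17 * x * L := by nlinarith
  have h6 : 1 ≤ x ^ 2 := Nat.one_le_pow _ _ (by omega)
  have h7 : x * L ≤ x ^ 3 * L := by
    refine Nat.mul_le_mul_right _ ?_
    calc x = x * 1 := (mul_one x).symm
      _ ≤ x * x ^ 2 := Nat.mul_le_mul_left _ h6
      _ = x ^ 3 := by ring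
  nlinarith

theorem NUML (hF : ST_MONF) (hG : ST_ACKG) : ST_NUML := by
  intro j h m q e hm hq hqh he heh θ hθ
  obtain ⟨G, hGd⟩ : ∃ G : ℕ → ℕ, G = fun M => GG q (Fq q j M) := ⟨_, rfl⟩
  obtain ⟨M0, hM0⟩ : ∃ M0, M0 = 2 ^ (14 + 6 * h) * m := ⟨_, rfl⟩
  obtain ⟨n, hn⟩ : ∃ n, n = 64 * e ^ 2 * Nat.clog 2 (2 * (m * e)) := ⟨_, rfl⟩
  rw [← hn, ← hM0, ← hGd] at hθ
  obtain ⟨Y, hY⟩ : ∃ Y, Y = Fq q j (G^[n] M0) := ⟨_, rfl⟩
  rw [← hY] at hθ
  have hL1 : 1 ≤ Nat.clog 2 m := Nat.clog_pos (by omega) hm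
  -- the upper bound
  have hq4 : 4096 * q ^ 4 ≤ M0 := by
    rw [hM0]
    calc 4096 * q ^ 4 ≤ 4096 * (2 ^ h) ^ 4 :=
          Nat.mul_le_mul_left _ (Nat.pow_le_pow_left hqh 4)
      _ = 2 ^ (12 + 4 * h) := by
          rw [pow_add, ← pow_mul, mul_comm h 4]
          norm_num
      _ ≤ 2 ^ (14 + 6 * h) * 1 := by
          rw [mul_one]
          exact Nat.pow_le_pow_right (by omega) (by omega)
      _ ≤ _ := Nat.mul_le_mul_left _ (by omega)
  have hMi : M0 ≤ Ack (j + 1) (14 + 6 * h + Nat.clog 2 m) := by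
    refine le_trans ?_ (fnum_ack (j + 1) _)
    rw [hM0, pow_add 2 (14 + 6 * h)]
    exact Nat.mul_le_mul_left _ (Nat.le_pow_clog (by omega) m)
  have g1 : M0 ≤ G^[n] M0 := by
    have := (hG q hq j M0 _ n hq4 hMi).1
    rwa [← hGd] at this
  have g2 : GG q Y ≤ Ack (j + 1) (14 + 6 * h + Nat.clog 2 m + 2 * (n + 1)) := by
    have := (hG q hq j M0 _ (n + 1) hq4 hMi).2
    rw [← hGd, Function.iterate_succ_apply'] at this
    rw [hY]
    refine le_trans (le_of_eq ?_) this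
    rw [hGd]
  have g3 : M0 ≤ Y := by
    rw [hY]
    exact g1.trans ((hF q j).1 _)
  have g4 : 14 + 6 * h + Nat.clog 2 m + 2 * (n + 1) ≤ 2 ^ (3 * h + 9) * Nat.clog 2 m := by
    refine le_trans ?_ (numl_num h (Nat.clog 2 m) hL1)
    have h1 : n ≤ 64 * (2 ^ h) ^ 2 * (1 + h + Nat.clog 2 m) := by
      rw [hn]
      exact Nat.mul_le_mul (Nat.mul_le_mul_left _ (Nat.pow_le_pow_left heh 2))
        (numl_clog m e h heh)
    omega
  have g5 : GG q Y ≤ Ack (j + 1) (2 ^ (3 * h + 9) * Nat.clog 2 m) :=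
    g2.trans (fnum_mono (j + 1) g4)
  have hpw : 2 ^ (14 + 6 * h) ≤ Y := by
    refine le_trans ?_ g3
    rw [hM0]
    exact Nat.le_mul_of_pos_right _ (by omega)
  have hY1 : 1 ≤ Y := le_trans Nat.one_le_two_pow hpw
  have hAU : 2 ^ Y ≤ Ack (j + 1) (2 ^ (3 * h + 9) * Nat.clog 2 m) := by
    refine le_trans ?_ g5
    unfold GG
    have h1 : Y ≤ 4 * q * Y ^ (5 * q) := by
      calc Y ≤ Y ^ (5 * q) := Nat.le_self_pow (by omega) Y
        _ = 1 * Y ^ (5 * q) := (one_mul _).symm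
        _ ≤ _ := Nat.mul_le_mul_right _ (by omega)
    calc 2 ^ Y ≤ 2 ^ (4 * q * Y ^ (5 * q)) := Nat.pow_le_pow_right (by omega) h1
      _ = 1 * 2 ^ (4 * q * Y ^ (5 * q)) := (one_mul _).symm
      _ ≤ _ := Nat.mul_le_mul_right _ hY1
  -- the main quantity
  obtain ⟨Z, hZ⟩ : ∃ Z, Z = 16 * max 1 (h ^ 2) * m * 2 ^ h * Y ^ (4 * q) := ⟨_, rfl⟩
  have hh2 : max 1 (h ^ 2) ≤ 2 ^ (2 * h) := by
    refine max_le Nat.one_le_two_pow ?_
    rw [mul_comm, pow_mul]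
    exact Nat.pow_le_pow_left Nat.lt_two_pow_self.le 2
  have hZ1 : Z ≤ Y ^ (4 * q + 1) := by
    rw [hZ, pow_succ Y (4 * q), mul_comm (Y ^ (4 * q)) Y]
    refine Nat.mul_le_mul_right _ ?_
    calc 16 * max 1 (h ^ 2) * m * 2 ^ h ≤ 16 * 2 ^ (2 * h) * m * 2 ^ h := by
          refine Nat.mul_le_mul_right _ (Nat.mul_le_mul_right _ (Nat.mul_le_mul_left _ hh2))
      _ = 2 ^ (4 + 3 * h) * m := by
          rw [pow_add, show 3 * h = 2 * h + h by ring, pow_add]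
          ring
      _ ≤ 2 ^ (14 + 6 * h) * m :=
          Nat.mul_le_mul_right _ (Nat.pow_le_pow_right (by omega) (by omega))
      _ ≤ Y := by
        rw [← hM0]
        exact g3
  have hZ0 : 1 ≤ Z := by
    rw [hZ]
    have h1 : 1 ≤ max 1 (h ^ 2) := le_max_left _ _
    have h2 : 1 ≤ Y ^ (4 * q) := Nat.one_le_pow _ _ hY1
    have h3 : 1 ≤ 2 ^ h := Nat.one_le_two_pow
    exact Nat.mul_pos (Nat.mul_pos (Nat.mul_pos (by omega) (by omega)) (by omega)) (by omega)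
  have hexp : (4 * q + 1) * (h + 1) ≤ 5 * 4 ^ h := by
    have h1 : 4 * q + 1 ≤ 5 * 2 ^ h := by omega
    have h2 : h + 1 ≤ 2 ^ h := Nat.lt_two_pow_self
    calc (4 * q + 1) * (h + 1) ≤ (5 * 2 ^ h) * 2 ^ h := Nat.mul_le_mul h1 h2
      _ = 5 * 4 ^ h := by
        rw [show (4 : ℕ) ^ h = 2 ^ h * 2 ^ h by rw [← mul_pow]; norm_num]
        ring
  have hfin : Z ^ (h + 1) ≤ Ack (j + 1) (2 ^ (3 * h + 9) * Nat.clog 2 m) := by
    refine le_trans ?_ hAU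
    calc Z ^ (h + 1) ≤ (Y ^ (4 * q + 1)) ^ (h + 1) := Nat.pow_le_pow_left hZ1 _
      _ = Y ^ ((4 * q + 1) * (h + 1)) := (pow_mul _ _ _).symm
      _ ≤ Y ^ (5 * 4 ^ h) := Nat.pow_le_pow_right hY1 hexp
      _ ≤ 2 ^ Y := by
        refine fnum_pow Y _ ?_ ?_
        · refine le_trans ?_ hpw
          calc (5 * 4 ^ h) ^ 2 = 25 * 2 ^ (4 * h) := by
                rw [mul_pow, ← pow_mul, show (4 : ℕ) = 2 ^ 2 by norm_num, ← pow_mul]
                congr 2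
                ring
            _ ≤ 2 ^ 14 * 2 ^ (6 * h) :=
                Nat.mul_le_mul (by norm_num) (Nat.pow_le_pow_right (by omega) (by omega))
            _ = _ := (pow_add _ _ _).symm
        · refine le_trans ?_ hpw
          calc 64 = 2 ^ 6 := by norm_num
            _ ≤ _ := Nat.pow_le_pow_right (by omega) (by omega)
  -- the real numbers
  have hFr : (1 : ℝ) ≤ Y := by exact_mod_cast hY1
  have hF0 : (0 : ℝ) < (Y : ℝ) ^ (4 * q) := by positivity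
  have hm0 : (0 : ℝ) < m := by
    have : 0 < m := by omega
    exact_mod_cast this
  have he0 : (0 : ℝ) < e := by
    have : 0 < e := by omega
    exact_mod_cast this
  have h2θ : 2 / θ = ((16 * (m * e) * Y ^ (4 * q) : ℕ) : ℝ) := by
    rw [hθ]
    push_cast
    field_simp
    norm_num
  have hle1 : 16 * (m * e) * Y ^ (4 * q) ≤ 16 * m * 2 ^ h * Y ^ (4 * q) := by
    refine Nat.mul_le_mul_right _ ?_
    rw [mul_assoc]
    exact Nat.mul_le_mul_left _ (Nat.mul_le_mul_left _ heh)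
  have hleZ : 16 * (m * e) * Y ^ (4 * q) ≤ Z := by
    refine le_trans hle1 ?_
    rw [hZ]
    refine Nat.mul_le_mul_right _ (Nat.mul_le_mul_right _ (Nat.mul_le_mul_right _ ?_))
    have : 1 ≤ max 1 (h ^ 2) := le_max_left _ _
    omega
  have hleZ2 : h ^ 2 * (16 * (m * e) * Y ^ (4 * q)) ≤ Z := by
    calc h ^ 2 * (16 * (m * e) * Y ^ (4 * q)) ≤
          max 1 (h ^ 2) * (16 * m * 2 ^ h * Y ^ (4 * q)) :=
          Nat.mul_le_mul (le_max_right _ _) hle1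
      _ = Z := by rw [hZ]; ring
  constructor
  · rw [h2θ]
    have h1 : Z ≤ Z ^ (h + 1) := Nat.le_self_pow (by omega) Z
    exact_mod_cast le_trans hleZ (le_trans h1 hfin)
  · have h1 : 2 * (h : ℝ) ^ 2 / θ = ((h ^ 2 * (16 * (m * e) * Y ^ (4 * q)) : ℕ) : ℝ) := by
      have : 2 * (h : ℝ) ^ 2 / θ = (h : ℝ) ^ 2 * (2 / θ) := by ring
      rw [this, h2θ]
      push_cast
      ring
    rw [h1]
    have h2 : (h ^ 2 * (16 * (m * e) * Y ^ (4 * q))) ^ h ≤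
        Ack (j + 1) (2 ^ (3 * h + 9) * Nat.clog 2 m) := by
      refine le_trans (Nat.pow_le_pow_left hleZ2 h) (le_trans ?_ hfin)
      exact Nat.pow_le_pow_right hZ0 (by omega)
    exact_mod_cast h2

end Pool.Helper92.RL
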